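import Pool.Agent.K4H59.TL.Spec
import Pool.Agent.K4H12.TLM0

set_option autoImplicit false

open Set

namespace Pool.Agent.K4H59.TL

open Pool.Agent.K4H72.Til (IsPolygon ShareEdge IsTiling Tile Derivable Adj HasLocEig)

theorem sh_neg_sh (t : ℂ) (K : Set ℂ) : sh (-t) (sh t K) = K := by
  rw [sh_sh, neg_add_cancel]
  unfold sh
  simp

/-- PIECE M1 (uses M0) -/
theorem sh_dec {K : Set ℂ} {D : Set (Set ℂ)} {ρ : Set ℂ → ℕ} (t : ℂ) (h : GoodDec K D ρ) :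
    GoodDec (sh t K) (sh t '' D) (fun Q => ρ (sh (-t) Q)) where
  countable := h.countable.image _
  poly := by
    rintro _ ⟨Q, hQ, rfl⟩
    exact sh_polygon t (h.poly Q hQ)
  sub := by
    rintro _ ⟨Q, hQ, rfl⟩
    exact Set.image_mono (h.sub Q hQ)
  cover := by
    rintro _ ⟨y, hy, rfl⟩
    obtain ⟨Q, hQ, hyQ⟩ := h.cover y hy
    exact ⟨sh t Q, ⟨Q, hQ, rfl⟩, y, hyQ, rfl⟩
  disj := by
    rintro _ ⟨Q, hQ, rfl⟩ _ ⟨Q', hQ', rfl⟩ hne
    have h1 : Q ≠ Q' := fun e => hne (by rw [e])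
    rw [sh_interior, sh_interior]
    exact (Set.disjoint_image_iff (add_right_injective t)).2 (h.disj Q hQ Q' hQ' h1)
  inner := by
    rintro _ ⟨Q, hQ, rfl⟩ h1
    rw [sh_neg_sh] at h1
    rw [sh_interior]
    exact Set.image_mono (h.inner Q hQ h1)
  next := by
    rintro _ ⟨Q, hQ, rfl⟩
    obtain ⟨W, hW, h1, h2, h3⟩ := h.next Q hQ
    refine ⟨sh t W, ⟨W, hW, rfl⟩, ?_, sh_share t h2, ?_⟩
    · rw [sh_neg_sh, sh_neg_sh]
      exact h1
    · rintro _ ⟨Q', hQ', rfl⟩ hne hs hr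
      rw [sh_neg_sh, sh_neg_sh] at hr
      have h4 := sh_share (-t) hs
      rw [sh_neg_sh, sh_neg_sh] at h4
      rw [h3 Q' hQ' (fun e => hne (by rw [e])) h4 hr]

end Pool.Agent.K4H59.TL
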